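import Mathlib

set_option autoImplicit false

namespace Pool.Agent.Results.MP_1d4a49_gt.NoCompactification

open Set Filter Topology Cardinal

universe u

/-- `cc(X) ≤ τ`: in every subspace, every family of pairwise disjoint nonempty open sets has
cardinality at most `τ`. -/
def CCLe (X : Type u) [TopologicalSpace X] (τ : Cardinal.{u}) : Prop :=
  ∀ (Y : Set X) (S : Set (Set Y)), (∀ V ∈ S, IsOpen V ∧ V.Nonempty) → S.PairwiseDisjoint id →
    #S ≤ τ

def II : Type := (Order.succ ℵ₀ : Cardinal.{0}).ord.ToType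

noncomputable instance : LinearOrder II :=
  inferInstanceAs (LinearOrder (Order.succ ℵ₀ : Cardinal.{0}).ord.ToType)
instance : WellFoundedLT II :=
  inferInstanceAs (WellFoundedLT (Order.succ ℵ₀ : Cardinal.{0}).ord.ToType)

lemma iio_gen (c : Cardinal.{0}) (i : c.ord.ToType) : #(Iio i) < c := by
  simpa using Cardinal.mk_Iio_lt i

lemma cIio (i : II) : (Iio i).Countable := by
  rw [← Cardinal.le_aleph0_iff_set_countable]
  exact Order.lt_succ_iff.mp (iio_gen _ i)

lemma unc : ¬ Countable II := by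
  rw [← Cardinal.mk_le_aleph0_iff, not_le]
  have : #II = Order.succ ℵ₀ := by unfold II; simp
  rw [this]; exact Order.lt_succ _

lemma free {K : Type u} [TopologicalSpace K] [CompactSpace K] [T2Space K] (p : K)
    (h : ∀ G : Set (Set K), G.Countable → (∀ O ∈ G, IsOpen O ∧ O.Nonempty) →
      ∃ U ∈ 𝓝 p, ∀ O ∈ G, ¬ O ⊆ U) : ¬ CCLe K ℵ₀ := by
  classical
  let c : (II → Set K × Set K) → Finset II × Finset II → Set K := fun r s =>
    (⋂ a ∈ s.1, interior (r a).1) ∩ ⋂ a ∈ s.2, (r a).2ᶜ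
  have h1 : ∀ (i : II) (r : II → Set K × Set K), ∃ v : Set K × Set K, v.1 ∈ 𝓝 p ∧ IsClosed v.1 ∧
      IsClosed v.2 ∧ v.1 ⊆ interior v.2 ∧ ∀ s : Finset II × Finset II, ↑s.1 ⊆ Iio i →
        ↑s.2 ⊆ Iio i → IsOpen (c r s) → (c r s).Nonempty → ¬ c r s ⊆ v.2 := by
    intro i r
    have hc : {R : Finset II | ↑R ⊆ Iio i}.Countable :=
      ((countable_ofPred_finite_subset (cIio i)).preimage_of_injOn
        Finset.coe_injective.injOn).mono fun R h => And.intro R.finite_toSet h
    obtain ⟨U, hU, h2⟩ := h {O ∈ c r '' ({R : Finset II | ↑R ⊆ Iio i} ×ˢ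
      {R : Finset II | ↑R ⊆ Iio i}) |
      IsOpen O ∧ O.Nonempty} (((hc.prod hc).image _).mono (sep_subset _ _)) fun O hO => hO.2
    obtain ⟨t, t1, t2, t3⟩ := exists_mem_nhds_isClosed_subset hU
    obtain ⟨w, w1, w2, w3⟩ := exists_mem_nhds_isClosed_subset (interior_mem_nhds.mpr t1)
    exact ⟨(w, t), w1, w2, t2, w3, fun s a1 a2 a3 a4 a5 =>
      h2 _ ⟨⟨s, ⟨a1, a2⟩, rfl⟩, a3, a4⟩ (a5.trans t3)⟩
  choose g g1 g2 g3 g4 g5 using h1
  let F : (i : II) → ((j : II) → j < i → Set K × Set K) → Set K × Set K :=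
    fun i r => g i (fun j => if h : j < i then r j h else (∅, ∅))
  let v : II → Set K × Set K := WellFoundedLT.fix F
  have hv : ∀ i, v i = g i (fun j => if j < i then v j else (∅, ∅)) :=
    fun i => WellFoundedLT.fix_eq F i
  have v1 : ∀ i, (v i).1 ∈ 𝓝 p := fun i => hv i ▸ g1 _ _
  have v2 : ∀ i, IsClosed (v i).1 := fun i => hv i ▸ g2 _ _
  have v3 : ∀ i, IsClosed (v i).2 := fun i => hv i ▸ g3 _ _
  have v4 : ∀ i, (v i).1 ⊆ interior (v i).2 := fun i => hv i ▸ g4 _ _
  have co : ∀ s, IsOpen (c v s) := fun s =>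
    (isOpen_biInter_finset fun _ _ => isOpen_interior).inter
      (isOpen_biInter_finset fun a _ => (v3 a).isOpen_compl)
  have v5 : ∀ i (s : Finset II × Finset II), ↑s.1 ⊆ Iio i → ↑s.2 ⊆ Iio i → (c v s).Nonempty →
      ¬ c v s ⊆ (v i).2 := by
    intro i s a1 a2 a3
    have e : c (fun j => if j < i then v j else (∅, ∅)) s = c v s := by
      simp only [c]
      congr 1
      · exact iInter₂_congr fun a ha => by rw [if_pos (show a < i from a1 ha)]
      · exact iInter₂_congr fun a ha => by rw [if_pos (show a < i from a2 ha)]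
    have := g5 i (fun j => if j < i then v j else (∅, ∅)) s a1 a2
    rw [e, ← hv] at this
    exact this (co s) a3
  have h2 : ∀ (s t : Finset II), (∀ a ∈ s, ∀ b ∈ t, a < b) → (c v (s, t)).Nonempty := by
    intro s t
    induction t using Finset.induction_on_max with
    | empty =>
      exact fun _ => ⟨p, mem_iInter₂.mpr fun a _ => mem_interior_iff_mem_nhds.mpr (v1 a), by simp⟩
    | insert b t hb ih =>
      intro h3
      obtain ⟨x, hx, hx2⟩ := not_subset.mp (v5 b (s, t)
        (fun a ha => h3 a ha b (Finset.mem_insert_self _ _)) (fun a ha => hb a ha)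
        (ih fun a ha d hd => h3 a ha d (Finset.mem_insert_of_mem hd)))
      refine ⟨x, hx.1, mem_iInter₂.mpr fun a ha => ?_⟩
      rcases Finset.mem_insert.mp ha with rfl | ha
      · exact hx2
      · exact mem_iInter₂.mp hx.2 a ha
  have h3 : ∀ i, ∃ x, ∀ j, x ∈ (if j ≤ i then (v j).1 else (interior (v j).2)ᶜ) := by
    intro i
    obtain ⟨x, -, hx⟩ := isCompact_univ.inter_iInter_nonempty
      (fun j => if j ≤ i then (v j).1 else (interior (v j).2)ᶜ) (fun j => by
        split_ifs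
        · exact v2 j
        · exact isOpen_interior.isClosed_compl) (fun t => by
        obtain ⟨x, a1, a2⟩ := h2 (t.filter (· ≤ i)) (t.filter (¬ · ≤ i)) fun a ha b hb =>
          (Finset.mem_filter.mp ha).2.trans_lt (not_le.mp (Finset.mem_filter.mp hb).2)
        refine ⟨x, trivial, mem_iInter₂.mpr fun j hj => ?_⟩
        split_ifs with h
        · exact interior_subset (mem_iInter₂.mp a1 j (Finset.mem_filter.mpr ⟨hj, h⟩))
        · exact fun h' => mem_iInter₂.mp a2 j (Finset.mem_filter.mpr ⟨hj, h⟩) (interior_subset h'))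
    exact ⟨x, mem_iInter.mp hx⟩
  choose x hx using h3
  have x1 : ∀ i j, j ≤ i → x i ∈ (v j).1 := fun i j h => by simpa [h] using hx i j
  have x2 : ∀ i j, i < j → x i ∉ interior (v j).2 := fun i j h => by
    have := hx i j
    rwa [if_neg (not_le.mpr h)] at this
  have h4 : ∀ i, ∃ O, IsOpen O ∧ x i ∈ O ∧ ∀ j, x j ∈ O → j = i := by
    intro i
    by_cases h : ∃ j, i < j
    · obtain ⟨k, hk, hmin⟩ := wellFounded_lt.has_min {j | i < j} h
      refine ⟨interior (v i).2 \ (v k).1, isOpen_interior.sdiff (v2 k),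
        ⟨v4 i (x1 i i le_rfl), fun h' => x2 i k hk (v4 k h')⟩, fun j hj => ?_⟩
      rcases lt_trichotomy j i with h' | h' | h'
      · exact absurd hj.1 (x2 j i h')
      · exact h'
      · exact absurd (x1 j k (not_lt.mp (hmin j h'))) hj.2
    · refine ⟨interior (v i).2, isOpen_interior, v4 i (x1 i i le_rfl), fun j hj => ?_⟩
      rcases lt_trichotomy j i with h' | h' | h'
      · exact absurd hj (x2 j i h')
      · exact h'
      · exact absurd ⟨j, h'⟩ h
  choose O O1 O2 O3 using h4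
  intro hcc
  let s : II → Set (range x) := fun i => {⟨x i, i, rfl⟩}
  have hs : Function.Injective s := fun i j h => by
    have : x i = x j := congrArg Subtype.val (singleton_injective h)
    exact O3 j i (this ▸ O2 j)
  have := hcc (range x) (range s) (by
    rintro _ ⟨i, rfl⟩
    refine ⟨isOpen_induced_iff.mpr ⟨O i, O1 i, ?_⟩, singleton_nonempty _⟩
    ext ⟨_, j, rfl⟩
    exact ⟨fun h => by rw [O3 i j h]; rfl, fun h => by
      have : x j = x i := congrArg Subtype.val h
      show x j ∈ O i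
      rw [this]; exact O2 i⟩) (by
    rintro _ ⟨i, rfl⟩ _ ⟨j, rfl⟩ h
    exact disjoint_singleton.mpr fun e => h (congrArg singleton e))
  rw [Cardinal.le_aleph0_iff_set_countable] at this
  exact unc (countable_univ_iff.mp
    ((this.preimage_of_injOn hs.injOn).mono fun i _ => mem_range_self (f := s) i))

open Classical in
noncomputable def ind (S : Finset (ℚ × ℚ)) : ℝ → Bool :=
  fun t => decide (∃ q ∈ S, (q.1 : ℝ) < t ∧ t < q.2)

def XS : Set (ℝ → Bool) := range ind

lemma chg (x : XS) (I : Finset ℝ) (t : ℝ) (ht : t ∉ I) :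
    ∃ y : XS, y.1 t = true ∧ ∀ s ∈ I, y.1 s = x.1 s := by
  classical
  obtain ⟨_, S, rfl⟩ := x
  obtain ⟨a, b, h1, h2⟩ := mem_nhds_iff_exists_Ioo_subset.mp
    (I.finite_toSet.isClosed.isOpen_compl.mem_nhds ht)
  obtain ⟨q, a1, a2⟩ := exists_rat_btwn h1.1
  obtain ⟨r, b1, b2⟩ := exists_rat_btwn h1.2
  refine ⟨⟨_, insert (q, r) S, rfl⟩, decide_eq_true ⟨(q, r), Finset.mem_insert_self _ _, a2, b1⟩,
    fun s hs => decide_eq_decide.mpr ⟨?_, fun ⟨w, c1, c2⟩ => ⟨w, Finset.mem_insert_of_mem c1, c2⟩⟩⟩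
  rintro ⟨w, c1, c2⟩
  rcases Finset.mem_insert.mp c1 with rfl | c1
  · exact absurd hs (h2 ⟨a1.trans c2.1, c2.2.trans b2⟩)
  · exact ⟨w, c1, c2⟩

theorem result : ∃ (X : Type) (_ : TopologicalSpace X), T35Space X ∧ Countable X ∧ CCLe X ℵ₀ ∧
    ∀ (K : Type u) [TopologicalSpace K] [CompactSpace K] [T2Space K] (e : X → K),
      IsDenseEmbedding e → ¬ CCLe K ℵ₀ := by
  have hc : Countable XS := (countable_range ind).to_subtype
  refine ⟨XS, inferInstance, inferInstance, hc, fun Y S h1 h2 => ?_, fun K _ _ _ e he => ?_⟩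
  · rw [Cardinal.le_aleph0_iff_set_countable]
    exact h2.countable_of_isOpen (fun V hV => (h1 V hV).1) (fun V hV => (h1 V hV).2)
  · refine free (e ⟨_, ∅, rfl⟩) fun G hG h => ?_
    have h1 : ∀ O : G, ∃ (x : XS) (I : Finset ℝ), ∀ y : XS, (∀ s ∈ I, y.1 s = x.1 s) →
        e y ∈ O.1 := by
      intro O
      obtain ⟨x, hx⟩ := he.dense.exists_mem_open (h O.1 O.2).1 (h O.1 O.2).2
      obtain ⟨V, hV, hVe⟩ := isOpen_induced_iff.mp ((h O.1 O.2).1.preimage he.continuous)
      have hxV : x ∈ Subtype.val ⁻¹' V := hVe ▸ hx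
      obtain ⟨I, w, a1, a2⟩ := isOpen_pi_iff.mp hV x.1 hxV
      refine ⟨x, I, fun y hy => ?_⟩
      have : y ∈ Subtype.val ⁻¹' V := a2 fun s hs => (hy s hs) ▸ (a1 s hs).2
      rwa [hVe] at this
    choose x I hI using h1
    have := hG.to_subtype
    have h2 : ∃ t, ∀ O, t ∉ I O := by
      by_contra h3
      push Not at h3
      exact Cardinal.not_countable_real ((countable_iUnion fun O => (I O).countable_toSet).mono
        fun t _ => mem_iUnion.mpr (h3 t))
    obtain ⟨t, ht⟩ := h2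
    have ho : IsOpen {y : XS | y.1 t = false} := (isOpen_discrete {false}).preimage
      (f := fun y : XS => y.1 t) ((continuous_apply t).comp continuous_subtype_val)
    obtain ⟨U, hU, hUe⟩ := he.isInducing.isOpen_iff.mp ho
    have hm : ∀ y, e y ∈ U ↔ y.1 t = false := fun y => Set.ext_iff.mp hUe y
    refine ⟨U, hU.mem_nhds ((hm _).mpr (by simp [ind])), fun O hO h3 => ?_⟩
    obtain ⟨y, a1, a2⟩ := chg (x ⟨O, hO⟩) (I ⟨O, hO⟩) t (ht _)
    have := (hm y).mp (h3 (hI ⟨O, hO⟩ y a2))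
    rw [a1] at this
    cases this

end Pool.Agent.Results.MP_1d4a49_gt.NoCompactification
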